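import Pool.Agent.X171.CcsDelta

/-!
# Every ccs Delta-point is a super Delta-point (Q1 of MP_c89e4d_an)

Proof idea. A weak neighbourhood of `x` is given by finitely many functionals. Take a fine finite
net of the unit sphere of their span, the slices `{g > g x - δ / 2}` for the functionals `g` of the
net, and the mean `C` of these slices, which contains `x`. If `z` is in `C` and almost at distance
two from `x`, then a norming functional of `x - z` is almost `-1` at all components `y i` of `z`,
hence on their convex hull; and the convex hull of the `y i` meets the weak neighbourhood.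
-/

set_option autoImplicit false

open Set Metric

namespace Pool.Agent.Results.MP_c89e4d_an.CcsDeltaIsSuperDelta

variable (𝕜 : Type*) [RCLike 𝕜] {X : Type*} [NormedAddCommGroup X] [NormedSpace 𝕜 X]

/-- The slice `S(f, α)` of the closed unit ball (used for `‖f‖ = 1` and `α > 0`). -/
def slice (f : X →L[𝕜] 𝕜) (α : ℝ) : Set X := {y | ‖y‖ ≤ 1 ∧ 1 - α < RCLike.re (f y)}

/-- `C` is a convex combination of slices of the closed unit ball. -/
def IsCcs (C : Set X) : Prop :=
  ∃ (n : ℕ) (l : Fin n → ℝ) (f : Fin n → (X →L[𝕜] 𝕜)) (α : Fin n → ℝ), 1 ≤ n ∧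
    (∀ i, 0 < l i) ∧ ∑ i, l i = 1 ∧ (∀ i, ‖f i‖ = 1 ∧ 0 < α i) ∧
    C = {z | ∃ y : Fin n → X, (∀ i, y i ∈ slice 𝕜 (f i) (α i)) ∧ z = ∑ i, (l i : 𝕜) • y i}

/-- `x` is a ccs `Δ`-point: `x` is in the unit sphere and the least upper bound of `‖x - y‖` over
`y ∈ C` is `2` for every convex combination of slices `C` which contains `x`. -/
def IsCcsDelta (x : X) : Prop :=
  ‖x‖ = 1 ∧ ∀ C : Set X, IsCcs 𝕜 C → x ∈ C → IsLUB ((fun y => ‖x - y‖) '' C) 2

/-- `W` is a relatively weakly open subset of the closed unit ball. -/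
def IsRelWeaklyOpen (W : Set X) : Prop :=
  ∃ U : Set (WeakSpace 𝕜 X), IsOpen U ∧ W = closedBall 0 1 ∩ toWeakSpace 𝕜 X ⁻¹' U

/-- `x` is a super `Δ`-point: `x` is in the unit sphere and the least upper bound of `‖x - y‖` over
`y ∈ W` is `2` for every relatively weakly open subset `W` of the unit ball which contains `x`. -/
def IsSuperDelta (x : X) : Prop :=
  ‖x‖ = 1 ∧ ∀ W : Set X, IsRelWeaklyOpen 𝕜 W → x ∈ W → IsLUB ((fun y => ‖x - y‖) '' W) 2

/-- Every ccs `Δ`-point of a real or complex Banach space is a super `Δ`-point. -/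
theorem result [CompleteSpace X] (x : X) (hx : IsCcsDelta 𝕜 x) : IsSuperDelta 𝕜 x :=
  Pool.Agent.X171.CcsDelta.main 𝕜 x hx

end Pool.Agent.Results.MP_c89e4d_an.CcsDeltaIsSuperDelta
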